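import Pool.Agent.H20.RT.Stmts

/-! Project RT, row E1: the concrete evaluation 111222 -> ... -> 117 (17 steps) -> 288 -> 117. -/

set_option autoImplicit false

namespace Pool.RT

theorem E1_thm (h : STPStmt) : E1Stmt := by
  have s0 : T (Wd 3 3 0 0 0 0 0 0 0) = Wd 0 0 6 0 0 0 0 0 0 := by
    refine h (wl 3 3 0 0 0 0 0 0 0) [3, 3, 3, 3, 3, 3] 0 0 6 0 0 0 0 0 0 ?_ ?_ ?_ ?_ ?_ ?_ ?_ ?_ ?_ ?_ ?_ ?_ <;> decide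
  have s1 : T (Wd 0 0 6 0 0 0 0 0 0) = Wd 0 0 0 0 0 6 0 0 0 := by
    refine h (wl 0 0 6 0 0 0 0 0 0) [6, 6, 6, 6, 6, 6] 0 0 0 0 0 6 0 0 0 ?_ ?_ ?_ ?_ ?_ ?_ ?_ ?_ ?_ ?_ ?_ ?_ <;> decide
  have s2 : T (Wd 0 0 0 0 0 6 0 0 0) = Wd 1 1 5 0 0 0 0 0 0 := by
    refine h (wl 0 0 0 0 0 6 0 0 0) [2, 3, 3, 3, 3, 3, 1] 1 1 5 0 0 0 0 0 0 ?_ ?_ ?_ ?_ ?_ ?_ ?_ ?_ ?_ ?_ ?_ ?_ <;> decide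
  have s3 : T (Wd 1 1 5 0 0 0 0 0 0) = Wd 0 0 0 2 2 3 0 0 0 := by
    refine h (wl 1 1 5 0 0 0 0 0 0) [4, 5, 6, 6, 6, 5, 4] 0 0 0 2 2 3 0 0 0 ?_ ?_ ?_ ?_ ?_ ?_ ?_ ?_ ?_ ?_ ?_ ?_ <;> decide
  have s4 : T (Wd 0 0 0 2 2 3 0 0 0) = Wd 5 2 0 0 0 0 0 0 0 := by
    refine h (wl 0 0 0 2 2 3 0 0 0) [0, 1, 2, 1, 2, 1, 1, 1] 5 2 0 0 0 0 0 0 0 ?_ ?_ ?_ ?_ ?_ ?_ ?_ ?_ ?_ ?_ ?_ ?_ <;> decide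
  have s5 : T (Wd 5 2 0 0 0 0 0 0 0) = Wd 0 3 4 0 0 0 0 0 0 := by
    refine h (wl 5 2 0 0 0 0 0 0 0) [3, 3, 2, 2, 2, 3, 3] 0 3 4 0 0 0 0 0 0 ?_ ?_ ?_ ?_ ?_ ?_ ?_ ?_ ?_ ?_ ?_ ?_ <;> decide
  have s6 : T (Wd 0 3 4 0 0 0 0 0 0) = Wd 0 0 0 0 6 1 0 0 0 := by
    refine h (wl 0 3 4 0 0 0 0 0 0) [5, 5, 5, 6, 5, 5, 5] 0 0 0 0 6 1 0 0 0 ?_ ?_ ?_ ?_ ?_ ?_ ?_ ?_ ?_ ?_ ?_ ?_ <;> decide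
  have s7 : T (Wd 0 0 0 0 6 1 0 0 0) = Wd 7 1 0 0 0 0 0 0 0 := by
    refine h (wl 0 0 0 0 6 1 0 0 0) [1, 1, 1, 1, 1, 1, 2, 1] 7 1 0 0 0 0 0 0 0 ?_ ?_ ?_ ?_ ?_ ?_ ?_ ?_ ?_ ?_ ?_ ?_ <;> decide
  have s8 : T (Wd 7 1 0 0 0 0 0 0 0) = Wd 0 6 2 0 0 0 0 0 0 := by
    refine h (wl 7 1 0 0 0 0 0 0 0) [3, 2, 2, 2, 2, 2, 2, 3] 0 6 2 0 0 0 0 0 0 ?_ ?_ ?_ ?_ ?_ ?_ ?_ ?_ ?_ ?_ ?_ ?_ <;> decide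
  have s9 : T (Wd 0 6 2 0 0 0 0 0 0) = Wd 0 0 0 4 4 0 0 0 0 := by
    refine h (wl 0 6 2 0 0 0 0 0 0) [5, 5, 4, 4, 4, 4, 5, 5] 0 0 0 4 4 0 0 0 0 ?_ ?_ ?_ ?_ ?_ ?_ ?_ ?_ ?_ ?_ ?_ ?_ <;> decide
  have s10 : T (Wd 0 0 0 4 4 0 0 0 0) = Wd 0 0 0 0 0 0 0 0 8 := by
    refine h (wl 0 0 0 4 4 0 0 0 0) [9, 9, 9, 9, 9, 9, 9, 9] 0 0 0 0 0 0 0 0 8 ?_ ?_ ?_ ?_ ?_ ?_ ?_ ?_ ?_ ?_ ?_ ?_ <;> decide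
  have s11 : T (Wd 0 0 0 0 0 0 0 0 8) = Wd 1 0 0 0 0 0 0 1 7 := by
    refine h (wl 0 0 0 0 0 0 0 0 8) [8, 9, 9, 9, 9, 9, 9, 9, 1] 1 0 0 0 0 0 0 1 7 ?_ ?_ ?_ ?_ ?_ ?_ ?_ ?_ ?_ ?_ ?_ ?_ <;> decide
  have s12 : T (Wd 1 0 0 0 0 0 0 1 7) = Wd 2 0 0 0 0 0 0 2 5 := by
    refine h (wl 1 0 0 0 0 0 0 1 7) [0, 8, 9, 9, 9, 9, 9, 8, 1, 1] 2 0 0 0 0 0 0 2 5 ?_ ?_ ?_ ?_ ?_ ?_ ?_ ?_ ?_ ?_ ?_ ?_ <;> decide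
  have s13 : T (Wd 2 0 0 0 0 0 0 2 5) = Wd 4 0 0 0 0 0 0 4 1 := by
    refine h (wl 2 0 0 0 0 0 0 2 5) [0, 1, 8, 8, 9, 8, 8, 1, 1, 1] 4 0 0 0 0 0 0 4 1 ?_ ?_ ?_ ?_ ?_ ?_ ?_ ?_ ?_ ?_ ?_ ?_ <;> decide
  have s14 : T (Wd 4 0 0 0 0 0 0 4 1) = Wd 2 0 0 0 0 0 1 0 0 := by
    refine h (wl 4 0 0 0 0 0 0 4 1) [0, 0, 0, 0, 7, 0, 0, 0, 1, 1] 2 0 0 0 0 0 1 0 0 ?_ ?_ ?_ ?_ ?_ ?_ ?_ ?_ ?_ ?_ ?_ ?_ <;> decide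
  have s15 : T (Wd 2 0 0 0 0 0 1 0 0) = Wd 0 1 0 0 0 0 0 2 0 := by
    refine h (wl 2 0 0 0 0 0 1 0 0) [8, 2, 8] 0 1 0 0 0 0 0 2 0 ?_ ?_ ?_ ?_ ?_ ?_ ?_ ?_ ?_ ?_ ?_ ?_ <;> decide
  have s16 : T (Wd 0 1 0 0 0 0 0 2 0) = Wd 2 0 0 0 0 0 1 0 0 := by
    refine h (wl 0 1 0 0 0 0 0 2 0) [0, 7, 1, 1] 2 0 0 0 0 0 1 0 0 ?_ ?_ ?_ ?_ ?_ ?_ ?_ ?_ ?_ ?_ ?_ ?_ <;> decide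
  unfold E1Stmt
  simp only [Function.iterate_succ, Function.iterate_zero, Function.comp, id]
  rw [s0, s1, s2, s3, s4, s5, s6, s7, s8, s9, s10, s11, s12, s13, s14, s15, s16, s15, s16]

end Pool.RT
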